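import Pool.Agent.helper48.EXI.Spec2
import Pool.Agent.helper48.AN.SpecF

set_option autoImplicit false

namespace EXI

open scoped Classical
open AN
open Pool.Agent.helper53.AU

noncomputable section

theorem SQR_fx {R : Type} [CommRing R] {N : ℕ} (t : Fin N → R) (s : Finset (Fin N)) :
    (∏ i ∈ s, (mono (-1) (1 : R) - LS.C (t i))) ∈ GE R (-(s.card : ℤ)) ∧
      cf (∏ i ∈ s, (mono (-1) (1 : R) - LS.C (t i))) (-(s.card : ℤ)) = 1 := by
  induction s using Finset.induction_on with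
  | empty =>
    constructor
    · rw [Finset.prod_empty]
      exact one_mem_PS
    · rw [Finset.prod_empty, cf_one]
      simp
  | insert a s ha ih =>
    rw [Finset.prod_insert ha, Finset.card_insert_of_notMem ha]
    have h1 : (mono (-1) (1 : R) - LS.C (t a)) ∈ GE R (-1) :=
      Submodule.sub_mem _ (mono_mem_GE _ _) (GE_mono (by norm_num) (C_mem_PS (t a)))
    have h2 : cf (mono (-1) (1 : R) - LS.C (t a)) (-1) = 1 := by
      rw [cf_sub, cf_mono, cf_C, if_pos rfl, if_neg (by norm_num), sub_zero]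
    have h3 : (-((s.card + 1 : ℕ) : ℤ)) = -1 + -(s.card : ℤ) := by push_cast; ring
    rw [h3]
    refine ⟨GE_mul h1 ih.1, ?_⟩
    rw [cf_mul_lead h1 ih.1, h2, ih.2, one_mul]

theorem SQR_par {R : Type} [CommRing R] (f g : LS R) (n : ℤ) (h : ∀ i : ℤ, cf f i * cf g (n - i) = 0) : cf (f * g) n = 0 := by
  obtain ⟨a, ha⟩ := exists_lb f
  obtain ⟨b, hb⟩ := exists_lb g
  rw [cf_mul_finset f g n (a := a) (b := b) ha hb]
  exact Finset.sum_eq_zero fun i _ => h i

theorem SQR_lead {L : Type} [Field L] (y u : LS L) (m : ℤ) (hyu : y * u = 1) (hu : u ∈ GE L m) (hu2 : cf u m ≠ 0) :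
    y ∈ GE L (-m) ∧ cf y (-m) ≠ 0 := by
  have hy : y ≠ 0 := by
    rintro rfl
    rw [zero_mul] at hyu
    exact zero_ne_one hyu
  obtain ⟨a, ha⟩ := exists_lb y
  have hex : ∃ n : ℤ, cf y n ≠ 0 := by
    by_contra hcon
    push Not at hcon
    exact hy (LS.ext fun n => by rw [hcon n, cf_zero])
  obtain ⟨N, hN, hN2⟩ := Int.exists_least_of_bdd (P := fun n => cf y n ≠ 0) ⟨a, fun n hn => by
    by_contra hc
    exact hn (ha n (not_le.mp hc))⟩ hex
  have hGE : y ∈ GE L N := by
    intro n hn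
    by_contra hc
    exact absurd (hN2 n hc) (not_le.mpr hn)
  have h1 : cf (y * u) (N + m) = cf y N * cf u m := cf_mul_lead hGE hu
  rw [hyu, cf_one] at h1
  have h2 : N + m = 0 := by
    by_contra hc
    rw [if_neg hc] at h1
    exact mul_ne_zero hN hu2 h1.symm
  have h3 : N = -m := by omega
  rw [h3] at hGE hN
  exact ⟨hGE, hN⟩

theorem SQR (hFCR : FCR_stmt) : SQR_stmt := by
  intro L _ _ h2 g t
  have hfx := SQR_fx t Finset.univ
  rw [Finset.card_univ, Fintype.card_fin] at hfx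
  change fx t ∈ GE L (-((2 * g + 1 : ℕ) : ℤ)) ∧ cf (fx t) (-((2 * g + 1 : ℕ) : ℤ)) = 1 at hfx
  have hE : E2 (fx t) ∈ GE L (-(4 * (g : ℤ) + 2)) := by
    intro n hn
    by_cases he : Even n
    · obtain ⟨m, hm⟩ := he
      have h3 : n = 2 * m := by omega
      rw [h3, cf_E2_even]
      apply hfx.1
      push_cast
      omega
    · exact cf_E2_odd _ _ he
  have hE2 : cf (E2 (fx t)) (-(4 * (g : ℤ) + 2)) = 1 := by
    have h3 : (-(4 * (g : ℤ) + 2)) = 2 * (-((2 * g + 1 : ℕ) : ℤ)) := by push_cast; ring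
    rw [h3, cf_E2_even]
    exact hfx.2
  have hw1 : mono (4 * (g : ℤ)) (1 : L) * E2 (fx t) ∈ GE L (-((2 : ℕ) : ℤ)) := by
    have h3 := GE_mul (mono_mem_GE (4 * (g : ℤ)) (1 : L)) hE
    have h4 : 4 * (g : ℤ) + -(4 * (g : ℤ) + 2) = -((2 : ℕ) : ℤ) := by push_cast; ring
    rwa [h4] at h3
  have hw2 : cf (mono (4 * (g : ℤ)) (1 : L) * E2 (fx t)) (-((2 : ℕ) : ℤ)) ≠ 0 := by
    rw [cf_mono_mul, one_mul]
    have h4 : -((2 : ℕ) : ℤ) - 4 * (g : ℤ) = -(4 * (g : ℤ) + 2) := by push_cast; ring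
    rw [h4, hE2]
    exact one_ne_zero
  obtain ⟨σ, hσ1, hσ2, hσ3⟩ := hFCR L 2 (by norm_num) (by exact_mod_cast h2) _ hw1 hw2
  set u : LS L := mono (2 * (g : ℤ)) (1 : L) * σ with hu
  have hu2 : u ^ 2 * E2 (fx t) = 1 := by
    rw [← hσ3, hu]
    have h3 : mono (4 * (g : ℤ)) (1 : L) = mono (2 * (g : ℤ)) (1 : L) * mono (2 * (g : ℤ)) (1 : L) := by
      rw [mono_mul_mono, one_mul]
      congr 1
      ring
    rw [h3]
    ring
  have hu0 : u ≠ 0 := by
    intro h0
    rw [h0] at hu2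
    simp at hu2
  have hyu : u⁻¹ * u = 1 := inv_mul_cancel₀ hu0
  have huGE : u ∈ GE L (2 * (g : ℤ) + 1) := GE_mul (mono_mem_GE _ _) hσ1
  have hucf : cf u (2 * (g : ℤ) + 1) ≠ 0 := by
    rw [hu, cf_mono_mul, one_mul]
    have h4 : 2 * (g : ℤ) + 1 - 2 * (g : ℤ) = 1 := by ring
    rw [h4]
    exact hσ2
  obtain ⟨hy1, hy2⟩ := SQR_lead u⁻¹ u _ hyu huGE hucf
  have hsq : u⁻¹ ^ 2 = E2 (fx t) := by
    rw [inv_pow]
    exact (eq_inv_of_mul_eq_one_right hu2).symm
  set y := u⁻¹ with hy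
  refine ⟨y, ⟨hsq, hy1, isUnit_iff_ne_zero.mpr hy2, ?_⟩⟩
  -- parity
  obtain ⟨a0, ha0⟩ := exists_lb y
  set a : LS L := ofFun (fun n => if Even n then cf y n else 0) a0 (fun n hn => by
    show (if Even n then cf y n else 0) = 0
    rw [ha0 n hn]; simp) with ha
  have hacf : ∀ n, cf a n = if Even n then cf y n else 0 := fun n => rfl
  have hbcf : ∀ n, cf (y - a) n = if Even n then 0 else cf y n := by
    intro n
    rw [cf_sub, hacf]
    split_ifs <;> simp
  have hab : a * (y - a) = 0 := by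
    apply LS.ext
    intro n
    rw [cf_zero]
    by_cases he : Even n
    · apply SQR_par
      intro i
      rw [hacf, hbcf]
      by_cases hi : Even i
      · rw [if_pos (he.sub hi), mul_zero]
      · rw [if_neg hi, zero_mul]
    · have h3 : y ^ 2 = a * a + (a * (y - a) + a * (y - a)) + (y - a) * (y - a) := by ring
      have h4 : cf (y ^ 2) n = 0 := by rw [hsq]; exact cf_E2_odd _ _ he
      have h5 : cf (a * a) n = 0 := by
        apply SQR_par
        intro i
        rw [hacf, hacf]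
        by_cases hi : Even i
        · have hni : ¬ Even (n - i) := by
            intro h
            apply he
            have h7 := h.add hi
            rwa [sub_add_cancel] at h7
          rw [if_neg hni, mul_zero]
        · rw [if_neg hi, zero_mul]
      have h6 : cf ((y - a) * (y - a)) n = 0 := by
        apply SQR_par
        intro i
        rw [hbcf, hbcf]
        by_cases hi : Even i
        · rw [if_pos hi, zero_mul]
        · rw [if_pos ((Int.not_even_iff_odd.mp he).sub_odd (Int.not_even_iff_odd.mp hi)), mul_zero]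
      rw [h3, cf_add, cf_add, cf_add, h5, h6, zero_add, add_zero, ← two_mul] at h4
      exact (mul_eq_zero.mp h4).resolve_left h2
  rcases mul_eq_zero.mp hab with h | h
  · intro n hn
    have h3 := hacf n
    rw [h, cf_zero, if_pos hn] at h3
    exact h3.symm
  · exfalso
    have h3 := hbcf (-(2 * (g : ℤ) + 1))
    rw [h, cf_zero, if_neg (by
      rw [Int.not_even_iff_odd]
      exact ⟨-(g : ℤ) - 1, by ring⟩)] at h3
    exact hy2 h3.symm

end

end EXI
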